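import Pool.Agent.Helper532_SymMCF.Finals

/-!
Tangent flows at the first singular time of mean curvature flows of closed embedded hypersurfaces
of revolution of `ℝ^(n+1)`, `n ≥ 2`: all negative time slices are smooth.
-/

open Set Filter MeasureTheory Topology
open scoped ContDiff NNReal ENNReal
open Pool.Agent.Helper532_SymMCF

namespace Pool.Agent.Results.MP_dc62ea_gt.RotationalTangentFlowsEvery

/-- Let `n ≥ 2`. At the first singular time of a smooth mean curvature flow of closed embedded
hypersurfaces of revolution of `ℝ^(n+1) = ℝ^n × ℝ`, the singular sets of all the negative time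
slices of every tangent flow, at every point `x₀`, are empty. -/
theorem result {n : ℕ} (hn : 2 ≤ n) {T : ℝ} (hT : 0 < T) {N : ℕ} {c : Fin N → ℝ → ℝ → ℂ}
    (h : IsRotFlow n T N c) {x₀ : V n 1} {μ : ℝ → Measure (V n 1)}
    (hμ : IsTangentFlow n (surfRot n c) T x₀ μ) :
    ∀ t < 0, sing (supp (μ t)) = ∅ := rot_every h hn hT hμ

end Pool.Agent.Results.MP_dc62ea_gt.RotationalTangentFlowsEvery
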