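import Pool.Agent.Helper532_SymMCF.Finals

/-!
Tangent flows at the first singular time of mean curvature flows of closed embedded hypersurfaces
of `ℝ^p × ℝ^q` which are invariant under `O(p) × O(q)`: at every negative time the only possible
singular point is the origin.
-/

open Set Filter MeasureTheory Topology
open scoped ContDiff NNReal ENNReal
open Pool.Agent.Helper532_SymMCF

namespace Pool.Agent.Results.MP_dc62ea_gt.SymmetricTangentFlowsEvery

/-- Let `p, q ≥ 2`, `n = p + q - 1`. At the first singular time of a smooth mean curvature flow of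
closed embedded `O(p) × O(q)`-invariant hypersurfaces of `ℝ^(n+1)`, the singular sets of all the
negative time slices of every tangent flow, at every point `x₀`, are empty if `x₀ ≠ 0` and
contained in `{0}` if `x₀ = 0`; in particular they have dimension at most `n - 3`. -/
theorem result {p q : ℕ} (hp : 2 ≤ p) (hq : 2 ≤ q) {T : ℝ} (hT : 0 < T) {N : ℕ}
    {c : Fin N → ℝ → ℝ → ℂ} (h : IsProfileFlow p q T N c) {x₀ : V p q}
    {μ : ℝ → Measure (V p q)} (hμ : IsTangentFlow (p + q - 1) (surf p q c) T x₀ μ) :
    ∀ t < 0, sing (supp (μ t)) ⊆ {z | x₀ = 0 ∧ z = 0} ∧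
      dimH (sing (supp (μ t))) ≤ ((p + q - 4 : ℕ) : ℝ≥0∞) := by
  intro t ht
  have h1 := every h hp hq hT hμ t ht
  refine ⟨h1, ?_⟩
  have h2 : sing (supp (μ t)) ⊆ {0} := fun z hz => (h1 hz).2
  refine (dimH_mono h2).trans ?_
  rw [dimH_singleton]
  exact zero_le

end Pool.Agent.Results.MP_dc62ea_gt.SymmetricTangentFlowsEvery
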